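import Pool.Agent.W758.AHC.Stm

set_option autoImplicit false

namespace Pool.Agent.W140.AHC.Avg

open Pool.Agent.W758.AHC

theorem key {ι : Type} [DecidableEq ι] (l : ℕ) (V : Finset ι) (A B : Finset (Finset ι))
    (hA : ∀ a ∈ A, a ⊆ V) (hAB : ∀ a ∈ A, ∀ b ∈ B, (a ∩ b).card = l) :
    ∑ x ∈ V, (A.filter (fun a => x ∈ a)).card * (B.filter (fun b => x ∈ b)).card =
      A.card * (B.card * l) := by
  have h1 : ∀ x ∈ V, (A.filter (fun a => x ∈ a)).card * (B.filter (fun b => x ∈ b)).card =
      ∑ a ∈ A, ∑ b ∈ B, if x ∈ a ∩ b then 1 else 0 := by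
    intro x _
    rw [Finset.card_filter, Finset.card_filter, Finset.sum_mul_sum]
    refine Finset.sum_congr rfl fun a _ => Finset.sum_congr rfl fun b _ => ?_
    by_cases h : x ∈ a <;> by_cases h' : x ∈ b <;> simp [h, h']
  rw [Finset.sum_congr rfl h1, Finset.sum_comm]
  have h2 : ∀ a ∈ A, ∑ x ∈ V, ∑ b ∈ B, (if x ∈ a ∩ b then 1 else 0) = B.card * l := by
    intro a ha
    rw [Finset.sum_comm]
    have h3 : ∀ b ∈ B, ∑ x ∈ V, (if x ∈ a ∩ b then 1 else 0) = l := by
      intro b hb
      rw [← Finset.card_filter, ← hAB a ha b hb]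
      congr 1
      ext x
      simp only [Finset.mem_filter, Finset.mem_inter]
      exact ⟨fun h => h.2, fun h => ⟨hA a ha h.1, h⟩⟩
    rw [Finset.sum_congr rfl h3, Finset.sum_const, smul_eq_mul]
  rw [Finset.sum_congr rfl h2, Finset.sum_const, smul_eq_mul]

theorem avg : S_AVG := by
  intro hPF ι _ l V A B hl hV hA hB hAB hI
  have hx : ∀ x ∈ V, (A.filter (fun a => x ∈ a)).card * (B.filter (fun b => x ∈ b)).card ≤
      Nat.choose (V.card - 1) (l - 1) := by
    intro x hx
    have h1 := hI x hx ((A.filter (fun a => x ∈ a)).image (fun a => a.erase x))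
      ((B.filter (fun a => x ∈ a)).image (fun a => a.erase x)) (by
        intro a ha
        obtain ⟨b, hb, rfl⟩ := Finset.mem_image.mp ha
        exact Finset.erase_subset_erase _ (hA b (Finset.mem_filter.mp hb).1)) (by
        intro a ha
        obtain ⟨b, hb, rfl⟩ := Finset.mem_image.mp ha
        exact Finset.erase_subset_erase _ (hB b (Finset.mem_filter.mp hb).1)) (by
        intro a ha b hb
        obtain ⟨a', ha', rfl⟩ := Finset.mem_image.mp ha
        obtain ⟨b', hb', rfl⟩ := Finset.mem_image.mp hb
        have ha2 := Finset.mem_filter.mp ha'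
        have hb2 := Finset.mem_filter.mp hb'
        have h2 : a'.erase x ∩ b'.erase x = (a' ∩ b').erase x := by
          ext y
          simp only [Finset.mem_inter, Finset.mem_erase]
          tauto
        rw [h2, Finset.card_erase_of_mem (Finset.mem_inter.mpr ⟨ha2.2, hb2.2⟩),
          hAB a' ha2.1 b' hb2.1])
    have hc : ∀ X : Finset (Finset ι),
        ((X.filter (fun a => x ∈ a)).image (fun a => a.erase x)).card =
        (X.filter (fun a => x ∈ a)).card := by
      intro X
      refine Finset.card_image_of_injOn fun a ha b hb hab => ?_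
      have ha' : x ∈ a := (Finset.mem_filter.mp ha).2
      have hb' : x ∈ b := (Finset.mem_filter.mp hb).2
      have hab' : a.erase x = b.erase x := hab
      rw [← Finset.insert_erase ha', ← Finset.insert_erase hb', hab']
    rw [hc, hc, Finset.card_erase_of_mem hx] at h1
    refine h1.trans (hPF.2.2.1 (l - 1) (V.card - 1) ?_)
    have := Finset.card_pos.mpr ⟨x, hx⟩
    omega
  have hs := Finset.sum_le_card_nsmul V _ _ hx
  rw [key l V A B hA hAB, smul_eq_mul] at hs
  have hn : V.card * Nat.choose (V.card - 1) (l - 1) ≤ Nat.choose V.card l * l := by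
    rcases Nat.eq_zero_or_pos V.card with h0 | h0
    · rw [h0, Nat.zero_mul]
      exact Nat.zero_le _
    · have h3 := Nat.add_one_mul_choose_eq (V.card - 1) (l - 1)
      have h4 : V.card - 1 + 1 = V.card := by omega
      have h5 : l - 1 + 1 = l := by omega
      rw [h4, h5] at h3
      exact h3.le
  have h6 : A.card * B.card ≤ Nat.choose V.card l := by
    have h7 : (A.card * B.card) * l ≤ Nat.choose V.card l * l := by
      calc (A.card * B.card) * l = A.card * (B.card * l) := by ring
        _ ≤ _ := hs.trans hn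
    exact Nat.le_of_mul_le_mul_right h7 (by omega)
  exact h6.trans (hPF.2.1 l V.card)

end Pool.Agent.W140.AHC.Avg
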